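import Pool.Agent.N631.SX.CDefs

/-!
# 3SUM-Indexing: data structures with proofs, definitions
-/

set_option autoImplicit false

namespace Pool.Agent.Run7.h412.MA

open Pool.Agent.R563
open Pool.Agent.N631.SX (Talk CTree)

/-- A data structure for two arrays of `n` integers, with `c` cells, and a verification of proofs. The
contents of the cell `σ` are an arbitrary function `make σ` of `r` bits and of the `d` bits of a
protocol of two players who know one of the arrays each. The bit `l` is the exclusive or of the answers
to all queries `z` in `Q σ l`, of an arbitrary function `f σ l` of the first array and of an arbitrary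
function `g σ l` of the second array. The algorithm `verify w z` reads cells adaptively and checks the
proof `w` (one of `W` possible proofs) of the claim that `z` is not a sum of two elements; its output
`true` means that it is convinced. -/
structure ProofDS (n c r d W : ℕ) (Γ : Type) where
  Q : Fin c → Fin r → Finset ℕ
  f : Fin c → Fin r → (Fin n → ℕ) → Bool
  g : Fin c → Fin r → (Fin n → ℕ) → Bool
  talk : Fin c → Talk (Fin n → ℕ) (Fin n → ℕ)
  make : Fin c → (Fin r → Bool) → List Bool → Γ
  verify : Fin W → ℕ → CTree c Γ

variable {n c r d W : ℕ} {Γ : Type}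

/-- the bit `l` of the cell `σ` -/
noncomputable def ProofDS.bit (D : ProofDS n c r d W Γ) (A B : Fin n → ℕ) (σ : Fin c)
    (l : Fin r) : Bool :=
  (XT.parity (D.Q σ l) fun z => ∃ i j, A i + B j = z) ^^ ((D.f σ l A) ^^ (D.g σ l B))

/-- the contents of the cell `σ` -/
noncomputable def ProofDS.cell (D : ProofDS n c r d W Γ) (A B : Fin n → ℕ) (σ : Fin c) : Γ :=
  D.make σ (D.bit A B σ) ((D.talk σ).run A B d)

open Classical in
/-- the number of cells in which answers enter -/
noncomputable def ProofDS.space (D : ProofDS n c r d W Γ) : ℕ :=
  (Finset.univ.filter fun σ : Fin c => ∃ l, (D.Q σ l).Nonempty).card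

/-- The proof `w` of the claim that `z` is not a sum is accepted after at most `t` probes. -/
def ProofDS.Accepts (D : ProofDS n c r d W Γ) (t : ℕ) (A B : Fin n → ℕ) (z : ℕ) (w : Fin W) :
    Prop :=
  (D.verify w z).out (D.cell A B) = true ∧ (D.verify w z).probes (D.cell A B) ≤ t

open Classical in
/-- The random data structure `D` (probabilities `p`) verifies the negative answers of 3SUM-Indexing:
for all arrays of `n` integers from `{0, …, n ^ 3}` and all `z`, if `z` is not the sum of an element of
the first array and an element of the second array then some proof is accepted with probability at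
least `1 / 2 + δ`, and if `z` is such a sum then every proof is accepted with probability at most
`1 / 2 - δ`. The proof may depend on the arrays and on `z`, but not on the random choice. -/
def Verifies {Ω : Type} [Fintype Ω] (p : Ω → ℝ) (D : Ω → ProofDS n c r d W Γ) (t : ℕ) (δ : ℝ) :
    Prop :=
  (∀ ω, 0 ≤ p ω) ∧ ∑ ω, p ω = 1 ∧
    ∀ A B : Fin n → ℕ, (∀ i, A i ≤ n ^ 3) → (∀ i, B i ≤ n ^ 3) → ∀ z : ℕ,
      ((¬ ∃ i j, A i + B j = z) →
        ∃ w, 1 / 2 + δ ≤ ∑ ω with (D ω).Accepts t A B z w, p ω) ∧
      ((∃ i j, A i + B j = z) →
        ∀ w, ∑ ω with (D ω).Accepts t A B z w, p ω ≤ 1 / 2 - δ)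

end Pool.Agent.Run7.h412.MA
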