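import Pool.Agent.Run7.h412.MA.Param
import Pool.Agent.Run7.h412.MA.SumDefs
import Pool.Agent.N631.SX.Main2
import Pool.Agent.N631.SX.Sim

/-!
# 3SUM-Indexing: proofs and random verification, the lower bound
-/

set_option autoImplicit false

namespace Pool.Agent.Run7.h412.MA

open Pool.Agent.W959 Pool.Agent.W959.Ent Pool.Agent.TH457.EntD Pool.Agent.N631.LX
open Pool.Agent.R563 Pool.Agent.N631.SX

variable {k q n c : ℕ} {N : ℕ}

open Classical in
/-- the bits of a table for 3SUM-Indexing on the hard arrays -/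
theorem exists_mem {ρ : ℕ} (hρ : 1 ≤ ρ) (hρv : vv n q ≤ ρ * ρ) (hv : 2 ≤ vv n q)
    (hN : 2 * (k * ρ) + (n + k * (q + 2)) ≤ N) (D : XT.XorSumDS N c) :
    ∃ M : Mem k q n c, M.space ≤ D.space ∧ ∀ (p : Fin k × Fin k) (x y : AA n k q),
      D.bit (arrA2 N ρ p.1 x) (arrB2 N ρ p.2 y) = M.val p x y := by
  choose cz fz gz hz using fun z => decomp2 (k := k) (v := vv n q) hρ hρv hv z
  let C' : Fin c → Fin k → Fin k → ZMod 2 := fun σ i j => ∑ z ∈ D.Q σ, cz z i j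
  refine ⟨⟨C', fun p σ x => b2 (D.f σ (arrA2 N ρ p.1 x)) + ∑ z ∈ D.Q σ, fz z (setS p.1 x),
    fun p σ y => b2 (D.g σ (arrB2 N ρ p.2 y)) + ∑ z ∈ D.Q σ, gz z (setT p.2 y)⟩, ?_, ?_⟩
  · unfold Mem.space XT.XorSumDS.space
    apply Finset.card_le_card
    intro σ hσ
    rw [Finset.mem_filter] at hσ ⊢
    refine ⟨Finset.mem_univ _, ?_⟩
    rw [Finset.nonempty_iff_ne_empty]
    intro h0
    apply hσ.2
    funext i j
    simp [C', h0]
  · intro p x y
    funext σ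
    unfold Mem.val
    rw [← decide_b2 (D.bit (arrA2 N ρ p.1 x) (arrB2 N ρ p.2 y) σ)]
    congr 2
    unfold XT.XorSumDS.bit
    rw [b2_xor, b2_xor, b2_parity]
    have h1 : ∀ z, b2 (@decide (∃ i j : Fin N, arrA2 N ρ p.1 x i + arrB2 N ρ p.2 y j = z)
        (Classical.propDecidable _)) =
        (∑ i, ∑ j, cz z i j * b2 (decide (meets (setS p.1 x) (setT p.2 y) i j))) +
          fz z (setS p.1 x) + gz z (setT p.2 y) := by
      intro z
      rw [← hz z]
      congr 1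
      rw [decide_eq_decide]
      exact arr2_iff hρ hN _ _ _ _ z
    rw [Finset.sum_congr rfl fun z _ => h1 z]
    simp only [Finset.sum_add_distrib]
    have h2 : ∑ z ∈ D.Q σ, ∑ i, ∑ j, cz z i j *
        b2 (decide (meets (setS p.1 x) (setT p.2 y) i j)) = xc p.1 p.2 (C' σ) x y := by
      rw [← meets_sum]
      rw [Finset.sum_comm]
      refine Finset.sum_congr rfl fun i _ => ?_
      rw [Finset.sum_comm]
      refine Finset.sum_congr rfl fun j _ => ?_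
      rw [← Finset.sum_mul]
    rw [h2]
    simp only [Pool.Agent.N631.SX.bt]
    ring

/-- the bound for memories of bits -/
theorem sum_bits {W : ℕ} (N t c s : ℕ) (ht : 1 ≤ t) {δ : ℝ} (hδ : 0 < δ) (hδ2 : δ ≤ 1 / 2)
    (Ω : Type) [Fintype Ω] (p : Ω → ℝ) (hp : ∀ ω, 0 ≤ p ω) (hp1 : ∑ ω, p ω = 1)
    (D : Ω → XT.XorSumDS N c) (hs : ∀ ω, (D ω).space ≤ s) (V : Ω → Fin W → ℕ → XT.Tree c Bool)
    (hcomp : ∀ A B : Fin N → ℕ, (∀ i, A i ≤ N ^ 3) → (∀ i, B i ≤ N ^ 3) → ∀ z : ℕ,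
      (¬ ∃ i j, A i + B j = z) →
        ∃ w, 1 / 2 + δ ≤ ∑ ω, p ω * ind ((ct t (V ω w z)).out ((D ω).bit A B) = true))
    (hsound : ∀ A B : Fin N → ℕ, (∀ i, A i ≤ N ^ 3) → (∀ i, B i ≤ N ^ 3) → ∀ z : ℕ,
      (∃ i j, A i + B j = z) →
        ∀ w, ∑ ω, p ω * ind ((ct t (V ω w z)).out ((D ω).bit A B) = true) ≤ 1 / 2 - δ) :
    δ ^ 10 * (N : ℝ) ^ 2 ≤
      10 ^ 19 * (t : ℝ) ^ 4 * ((Nat.log 2 W : ℝ) + 1) ^ 5 * ((s : ℝ) + 1) := by
  classical
  obtain ⟨K, hK1, hK2, hK3, hK4⟩ := choose_K (W := W) hδ hδ2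
  obtain ⟨T, hT⟩ : ∃ T : ℕ, T = 2 * (K * t) := ⟨_, rfl⟩
  obtain ⟨m, hm⟩ : ∃ m : ℕ, m = 1400 * T := ⟨_, rfl⟩
  obtain ⟨n, hn⟩ : ∃ n : ℕ, n = m ^ 2 := ⟨_, rfl⟩
  obtain ⟨q, hq⟩ : ∃ q : ℕ, q = 100 * T := ⟨_, rfl⟩
  obtain ⟨ρ, hρ⟩ : ∃ ρ : ℕ, ρ = 1401 * T := ⟨_, rfl⟩
  have hKt : 1 ≤ K * t := Nat.one_le_iff_ne_zero.2 (by positivity)
  have hT1 : 1 ≤ T := by omega
  have hT1' : (1 : ℝ) ≤ T := by exact_mod_cast hT1
  have hρ1 : 1 ≤ ρ := by omega
  have htt : T ≤ T ^ 2 := by nlinarith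
  have htt1 : 1 ≤ T ^ 2 := Nat.one_le_pow _ _ hT1
  have hn2 : n = 1960000 * T ^ 2 := by rw [hn, hm]; ring
  have hv : 2 ≤ vv n q := by unfold vv; omega
  have hρv : vv n q ≤ ρ * ρ := by
    have h3 : ρ * ρ = 1962801 * T ^ 2 := by rw [hρ]; ring
    rw [h3]
    unfold vv
    rw [hn2, hq]
    omega
  have hs0 : (0 : ℝ) ≤ s := by positivity
  have hK0 : (0 : ℝ) ≤ K := by positivity
  have hL0 : (1 : ℝ) ≤ (Nat.log 2 W : ℝ) + 1 := by
    have : (0 : ℝ) ≤ Nat.log 2 W := Nat.cast_nonneg _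
    linarith
  obtain ⟨L, hL⟩ : ∃ L, L = (Nat.log 2 W : ℝ) + 1 := ⟨_, rfl⟩
  rw [← hL] at hK2 hL0 ⊢
  have hn' : (n : ℝ) = 1960000 * (T : ℝ) ^ 2 := by
    rw [hn2]
    push_cast
    ring
  have hTr : (T : ℝ) = 2 * (K * t) := by rw [hT]; push_cast; ring
  have hKδ : δ ^ 10 * (K : ℝ) ^ 5 ≤ 16807 * L ^ 5 := by
    calc δ ^ 10 * (K : ℝ) ^ 5 = (δ ^ 2 * K) ^ 5 := by ring
      _ ≤ (7 * L) ^ 5 := pow_le_pow_left₀ (by positivity) hK2 5
      _ = _ := by ring
  have hfin : (N : ℝ) ^ 2 ≤ 500000000000000 * (K : ℝ) ^ 5 * ((t : ℝ) ^ 4 * (s + 1)) →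
      δ ^ 10 * (N : ℝ) ^ 2 ≤ 10 ^ 19 * (t : ℝ) ^ 4 * L ^ 5 * ((s : ℝ) + 1) := by
    intro h
    have h4 : (0 : ℝ) ≤ (t : ℝ) ^ 4 * (s + 1) := by positivity
    calc δ ^ 10 * (N : ℝ) ^ 2 ≤
          δ ^ 10 * (500000000000000 * (K : ℝ) ^ 5 * ((t : ℝ) ^ 4 * (s + 1))) :=
          mul_le_mul_of_nonneg_left h (by positivity)
      _ = 500000000000000 * (δ ^ 10 * (K : ℝ) ^ 5) * ((t : ℝ) ^ 4 * (s + 1)) := by ring
      _ ≤ 500000000000000 * (16807 * L ^ 5) * ((t : ℝ) ^ 4 * (s + 1)) := by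
          apply mul_le_mul_of_nonneg_right _ h4
          exact mul_le_mul_of_nonneg_left hKδ (by positivity)
      _ = 8403500000000000000 * (L ^ 5 * ((t : ℝ) ^ 4 * (s + 1))) := by ring
      _ ≤ 10 ^ 19 * (L ^ 5 * ((t : ℝ) ^ 4 * (s + 1))) := by
          apply mul_le_mul_of_nonneg_right (by norm_num)
          positivity
      _ = _ := by ring
  have hK1' : (1 : ℝ) ≤ K := by exact_mod_cast hK1
  apply hfin
  by_cases hNn : N < 2 * n
  · have h1 : (N : ℝ) ≤ 2 * n := by exact_mod_cast hNn.le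
    rw [hn'] at h1
    calc (N : ℝ) ^ 2 ≤ (2 * (1960000 * (T : ℝ) ^ 2)) ^ 2 :=
          pow_le_pow_left₀ (by positivity) h1 2
      _ = 245862400000000 * ((K : ℝ) ^ 4 * 1) * ((t : ℝ) ^ 4 * 1) := by rw [hTr]; ring
      _ ≤ 500000000000000 * ((K : ℝ) ^ 4 * K) * ((t : ℝ) ^ 4 * (s + 1)) := by
          have h5 : (K : ℝ) ^ 4 * 1 ≤ (K : ℝ) ^ 4 * K :=
            mul_le_mul_of_nonneg_left hK1' (by positivity)
          have h6 : (t : ℝ) ^ 4 * 1 ≤ (t : ℝ) ^ 4 * (s + 1) :=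
            mul_le_mul_of_nonneg_left (by linarith) (by positivity)
          apply mul_le_mul _ h6 (by positivity) (by positivity)
          exact mul_le_mul (by norm_num) h5 (by positivity) (by norm_num)
      _ = _ := by ring
  · push Not at hNn
    obtain ⟨k, hk⟩ : ∃ k : ℕ, k = N / (5808 * T) := ⟨_, rfl⟩
    have hkN : k * (5808 * T) ≤ N := by rw [hk]; exact Nat.div_mul_le_self _ _
    have hk1 : 1 ≤ k := by
      rw [hk, Nat.one_le_div_iff (by omega)]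
      omega
    have hN : 2 * (k * ρ) + (n + k * (q + 2)) ≤ N := by
      have h1 : 2 * (k * ρ) + k * (q + 2) ≤ k * (2904 * T) := by
        calc 2 * (k * ρ) + k * (q + 2) = k * (2 * ρ + (q + 2)) := by ring
          _ ≤ k * (2904 * T) := Nat.mul_le_mul_left _ (by omega)
      have h2 : k * (5808 * T) = 2 * (k * (2904 * T)) := by ring
      omega
    have hN2 : N ≤ (k + 1) * (5808 * T) := by
      have := Nat.lt_div_mul_add (a := N) (b := 5808 * T) (by omega)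
      rw [← hk] at this
      have h2 : (k + 1) * (5808 * T) = k * (5808 * T) + 5808 * T := by ring
      omega
    have hN2' : (N : ℝ) ≤ ((k : ℝ) + 1) * (5808 * T) := by exact_mod_cast hN2
    have hcube : WW ρ (vv n q) * (k * k) ≤ N ^ 3 := cube2_le hρ1 hρv hk1 (by omega)
    have hAle : ∀ (i0 : Fin k) (x : AA n k q) (l : Fin N), arrA2 N ρ i0 x l ≤ N ^ 3 :=
      fun i0 x l => (VA_le hρ1 hv _ (arrF_mem (x0A hρ1 i0 x) l)).trans hcube
    have hBle : ∀ (j0 : Fin k) (y : AA n k q) (l : Fin N), arrB2 N ρ j0 y l ≤ N ^ 3 :=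
      fun j0 y l => (VB_le hρ1 hv _ (arrF_mem (x0B hρ1 j0 y) l)).trans hcube
    choose M hM hMval using fun ω => exists_mem (k := k) (q := q) (n := n) hρ1 hρv hv hN (D ω)
    have h := engine (k := k) (q := q) (n := n) (W := W) (s := s) ht hK1 hT hm hn hq p hp hp1 M
      (fun ω => (hM ω).trans (hs ω)) (fun ω w pr => V ω w (pos2 n q k ρ pr)) hδ hδ2
      (by
        intro pr x y hd
        obtain ⟨w, hw⟩ := hcomp (arrA2 N ρ pr.1 x) (arrB2 N ρ pr.2 y) (hAle _ _) (hBle _ _)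
          (pos2 n q k ρ pr) (by
            rw [pos2_iff hρ1 hv hN]
            exact not_not.2 hd)
        refine ⟨w, hw.trans (le_of_eq ?_)⟩
        refine Finset.sum_congr rfl fun ω _ => ?_
        rw [hMval ω pr x y])
      (by
        intro pr x y hd w
        have hw := hsound (arrA2 N ρ pr.1 x) (arrB2 N ρ pr.2 y) (hAle _ _) (hBle _ _)
          (pos2 n q k ρ pr) (by
            rw [pos2_iff hρ1 hv hN]
            exact hd) w
        refine le_trans (le_of_eq ?_) hw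
        refine Finset.sum_congr rfl fun ω _ => ?_
        rw [hMval ω pr x y])
      hK3 (hK4 t ht)
    have hk1' : (1 : ℝ) ≤ k := by exact_mod_cast hk1
    have hN4 : (N : ℝ) ≤ 11616 * (T : ℝ) * k := by
      refine hN2'.trans ?_
      have : (k : ℝ) + 1 ≤ 2 * k := by linarith
      calc ((k : ℝ) + 1) * (5808 * (T : ℝ)) ≤ 2 * k * (5808 * (T : ℝ)) :=
            mul_le_mul_of_nonneg_right this (by positivity)
        _ = _ := by ring
    have hq' : (q : ℝ) = 100 * T := by rw [hq]; push_cast; ring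
    calc (N : ℝ) ^ 2 ≤ (11616 * (T : ℝ) * k) ^ 2 := pow_le_pow_left₀ (by positivity) hN4 2
      _ = 134931456 * (T : ℝ) ^ 2 * (k : ℝ) ^ 2 := by ring
      _ ≤ 134931456 * (T : ℝ) ^ 2 * (4 * ((K * s : ℕ) * (q : ℝ) ^ 2)) :=
          mul_le_mul_of_nonneg_left h (by positivity)
      _ = 86356131840000 * ((K : ℝ) ^ 5 * ((t : ℝ) ^ 4 * s)) := by
          rw [hq', hTr]
          push_cast
          ring
      _ ≤ 500000000000000 * ((K : ℝ) ^ 5 * ((t : ℝ) ^ 4 * (s + 1))) := by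
          apply mul_le_mul (by norm_num) _ (by positivity) (by norm_num)
          apply mul_le_mul_of_nonneg_left _ (by positivity)
          exact mul_le_mul_of_nonneg_left (by linarith) (by positivity)
      _ = _ := by ring

/-! ### cells -/

variable {r d W : ℕ} {Γ : Type}

/-- the memory as a table of cells -/
def memDS (D : ProofDS n c r d W Γ) : CellDS n c r d Γ :=
  ⟨D.Q, D.f, D.g, D.talk, D.make, fun _ => CTree.answer false⟩

/-- the verification as a tree of bit probes -/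
noncomputable def verT (D : ProofDS n c r d W Γ) (w : Fin W) (z : ℕ) :
    XT.Tree (Fintype.card (Idx c r d)) Bool :=
  sim (fun σ l => idx c r d (σ, Sum.inl l)) (fun σ h => idx c r d (σ, Sum.inr h)) D.make
    (D.verify w z)

theorem verT_out (D : ProofDS n c r d W Γ) (A B : Fin n → ℕ) (w : Fin W) (z : ℕ) :
    (verT D w z).out ((simDS (memDS D)).bit A B) = (D.verify w z).out (D.cell A B) :=
  sim_out D.talk A B _ _ _ D.make (D.bit A B) (simDS_inl (memDS D) A B)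
    (simDS_inr (memDS D) A B) (D.verify w z)

theorem verT_probes (D : ProofDS n c r d W Γ) (A B : Fin n → ℕ) (w : Fin W) (z : ℕ) :
    (verT D w z).probes ((simDS (memDS D)).bit A B) =
      (r + d) * (D.verify w z).probes (D.cell A B) :=
  sim_probes D.talk A B _ _ _ D.make (D.bit A B) (simDS_inl (memDS D) A B)
    (simDS_inr (memDS D) A B) (D.verify w z)

theorem sum_cells (N t c s r d W : ℕ) (Γ : Type) (ht : 1 ≤ t) (hr : 1 ≤ r) (δ : ℝ) (hδ : 0 < δ)
    (hδ2 : δ ≤ 1 / 2) (Ω : Type) [Fintype Ω] (p : Ω → ℝ) (D : Ω → ProofDS N c r d W Γ)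
    (hs : ∀ ω, (D ω).space ≤ s) (hD : Verifies p D t δ) :
    δ ^ 10 * (N : ℝ) ^ 2 ≤
      10 ^ 19 * (((r : ℝ) + d) * t) ^ 4 * ((Nat.log 2 W : ℝ) + 1) ^ 5 * (r * s + 1) := by
  classical
  obtain ⟨hp, hp1, hcor⟩ := hD
  have hrd : 0 < r + d := by omega
  have key : ∀ (A B : Fin N → ℕ) (z : ℕ) (w : Fin W),
      ∑ ω, p ω * ind ((ct ((r + d) * t) (verT (D ω) w z)).out
        ((simDS (memDS (D ω))).bit A B) = true) = ∑ ω with (D ω).Accepts t A B z w, p ω := by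
    intro A B z w
    rw [Finset.sum_filter]
    refine Finset.sum_congr rfl fun ω _ => ?_
    have h1 : (ct ((r + d) * t) (verT (D ω) w z)).out ((simDS (memDS (D ω))).bit A B) = true ↔
        (D ω).Accepts t A B z w := by
      rw [ct_iff, verT_out, verT_probes]
      unfold ProofDS.Accepts
      rw [Nat.mul_le_mul_left_iff hrd]
    by_cases h : (D ω).Accepts t A B z w
    · rw [if_pos h, ind_true (h1.2 h), mul_one]
    · rw [if_neg h, ind_false (fun h' => h (h1.1 h')), mul_zero]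
  have h := sum_bits (W := W) N ((r + d) * t) (Fintype.card (Idx c r d)) (r * s)
    (Nat.one_le_iff_ne_zero.2 (by positivity)) hδ hδ2 Ω p hp hp1 (fun ω => simDS (memDS (D ω)))
    (fun ω => simDS_space (memDS (D ω)) (hs ω)) (fun ω w z => verT (D ω) w z)
    (by
      intro A B hA hB z hz
      obtain ⟨w, hw⟩ := (hcor A B hA hB z).1 hz
      refine ⟨w, ?_⟩
      rw [key]
      exact hw)
    (by
      intro A B hA hB z hz w
      rw [key]
      exact (hcor A B hA hB z).2 hz w)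
  push_cast at h
  exact h

end Pool.Agent.Run7.h412.MA
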