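import Pool.Agent.N631.SX.CDefs

/-!
# Emptiness of intersections: data structures with proofs, definitions
-/

set_option autoImplicit false

namespace Pool.Agent.Run7.h412.MA

open Pool.Agent.R563
open Pool.Agent.N631.SX (Talk CTree)

/-- A data structure for a family of `2 k` subsets of a universe with `u` elements, the sets `X i` of
the first half and the sets `Y j` of the second half, with `c` cells, and a verification of proofs. The
contents of the cell `σ` are an arbitrary function `make σ` of `r` bits and of the `d` bits of a
protocol of two players who know one half of the family each. The bit `l` is the exclusive or of the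
answers to the queries in `P σ l` (do `X i` and `Y j` intersect?), of an arbitrary function `f σ l` of
the first half and of an arbitrary function `g σ l` of the second half. The algorithm `verify w i j`
reads cells adaptively and checks the proof `w` (one of `W` possible proofs) of the claim that `X i` and
`Y j` are disjoint; its output `true` means that it is convinced. -/
structure EProofDS (k u c r d W : ℕ) (Γ : Type) where
  P : Fin c → Fin r → Finset (Fin k × Fin k)
  f : Fin c → Fin r → (Fin k → Finset (Fin u)) → Bool
  g : Fin c → Fin r → (Fin k → Finset (Fin u)) → Bool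
  talk : Fin c → Talk (Fin k → Finset (Fin u)) (Fin k → Finset (Fin u))
  make : Fin c → (Fin r → Bool) → List Bool → Γ
  verify : Fin W → Fin k → Fin k → CTree c Γ

variable {k u c r d W : ℕ} {Γ : Type}

/-- the bit `l` of the cell `σ` -/
noncomputable def EProofDS.bit (D : EProofDS k u c r d W Γ) (X Y : Fin k → Finset (Fin u))
    (σ : Fin c) (l : Fin r) : Bool :=
  (XT.parity (D.P σ l) fun p => (X p.1 ∩ Y p.2).Nonempty) ^^ ((D.f σ l X) ^^ (D.g σ l Y))

/-- the contents of the cell `σ` -/
noncomputable def EProofDS.cell (D : EProofDS k u c r d W Γ) (X Y : Fin k → Finset (Fin u))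
    (σ : Fin c) : Γ :=
  D.make σ (D.bit X Y σ) ((D.talk σ).run X Y d)

open Classical in
/-- the number of cells in which answers enter -/
noncomputable def EProofDS.space (D : EProofDS k u c r d W Γ) : ℕ :=
  (Finset.univ.filter fun σ : Fin c => ∃ l, (D.P σ l).Nonempty).card

/-- The proof `w` of the claim that `X i` and `Y j` are disjoint is accepted after at most `t`
probes. -/
def EProofDS.Accepts (D : EProofDS k u c r d W Γ) (t : ℕ) (X Y : Fin k → Finset (Fin u))
    (i j : Fin k) (w : Fin W) : Prop :=
  (D.verify w i j).out (D.cell X Y) = true ∧ (D.verify w i j).probes (D.cell X Y) ≤ t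

open Classical in
/-- The random data structure `D` (probabilities `p`) verifies that intersections are empty: for all
families of total size at most `N` and all `i`, `j`, if `X i` and `Y j` are disjoint then some proof is
accepted with probability at least `1 / 2 + δ`, and if they intersect then every proof is accepted with
probability at most `1 / 2 - δ`. The proof may depend on the family and on `i`, `j`, but not on the
random choice. -/
def EVerifies (N : ℕ) {Ω : Type} [Fintype Ω] (p : Ω → ℝ) (D : Ω → EProofDS k u c r d W Γ)
    (t : ℕ) (δ : ℝ) : Prop :=
  (∀ ω, 0 ≤ p ω) ∧ ∑ ω, p ω = 1 ∧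
    ∀ X Y : Fin k → Finset (Fin u), ∑ i, (X i).card + ∑ j, (Y j).card ≤ N → ∀ i j : Fin k,
      (¬ (X i ∩ Y j).Nonempty →
        ∃ w, 1 / 2 + δ ≤ ∑ ω with (D ω).Accepts t X Y i j w, p ω) ∧
      ((X i ∩ Y j).Nonempty →
        ∀ w, ∑ ω with (D ω).Accepts t X Y i j w, p ω ≤ 1 / 2 - δ)

end Pool.Agent.Run7.h412.MA
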