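import Pool.Agent.Run7.h412.MA.Param
import Pool.Agent.Run7.h412.MA.EmpDefs
import Pool.Agent.N631.SX.EMain3

/-!
# Emptiness of intersections: proofs and random verification, the lower bound
-/

set_option autoImplicit false

namespace Pool.Agent.Run7.h412.MA

open Pool.Agent.W959 Pool.Agent.W959.Ent Pool.Agent.TH457.EntD Pool.Agent.N631.LX
open Pool.Agent.R563 Pool.Agent.N631.SX

variable {k q n c : ℕ} {N : ℕ}

open Classical in
/-- the bits of a table of emptiness answers on the hard families -/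
theorem e_exists_mem (D : EDS k (vv n q) c) :
    ∃ M : Mem k q n c, M.space ≤ D.space ∧ ∀ (p : Fin k × Fin k) (x y : AA n k q),
      D.bit (famX p.1 x) (famY p.2 y) = M.val p x y := by
  let C' : Fin c → Fin k → Fin k → ZMod 2 := fun σ i j => if (i, j) ∈ D.P σ then 1 else 0
  refine ⟨⟨C', fun p σ x => b2 (D.f σ (famX p.1 x)), fun p σ y => b2 (D.g σ (famY p.2 y))⟩,
    ?_, ?_⟩
  · unfold Mem.space EDS.space
    apply Finset.card_le_card
    intro σ hσ
    rw [Finset.mem_filter] at hσ ⊢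
    refine ⟨Finset.mem_univ _, ?_⟩
    rw [Finset.nonempty_iff_ne_empty]
    intro h0
    apply hσ.2
    funext i j
    simp [C', h0]
  · intro p x y
    funext σ
    unfold Mem.val
    rw [← decide_b2 (D.bit (famX p.1 x) (famY p.2 y) σ)]
    congr 2
    unfold EDS.bit
    rw [b2_xor, b2_xor, b2_parity]
    have h2 : ∑ z ∈ D.P σ, b2 (@decide ((famX p.1 x z.1 ∩ famY p.2 y z.2).Nonempty)
        (Classical.propDecidable _)) = xc p.1 p.2 (C' σ) x y := by
      rw [← meets_sum, ← Fintype.sum_prod_type' (f := fun i j => C' σ i j *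
        b2 (decide (meets (setS p.1 x) (setT p.2 y) i j)))]
      simp only [C', ite_mul, one_mul, zero_mul, Prod.mk.eta]
      rw [← Finset.sum_filter]
      have h3 : Finset.univ.filter (fun z => z ∈ D.P σ) = D.P σ := by
        ext z
        simp
      rw [h3]
      refine Finset.sum_congr rfl fun z _ => ?_
      congr 1
      rw [decide_eq_decide]
      exact fam_meets _ _ _ _ _ _
    rw [h2]
    simp only [Pool.Agent.N631.SX.bt]
    ring

/-- the bound for memories of bits -/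
theorem e_bits (N t W : ℕ) (ht : 1 ≤ t) {δ : ℝ} (hδ : 0 < δ) (hδ2 : δ ≤ 1 / 2) :
    ∃ k u : ℕ, 400 * t * k ≤ N ∧
      δ ^ 4 * (u : ℝ) ≤ 10 ^ 9 * (t : ℝ) ^ 2 * ((Nat.log 2 W : ℝ) + 1) ^ 2 ∧
    ∀ (c s : ℕ) (Ω : Type) [Fintype Ω] (p : Ω → ℝ) (_hp : ∀ ω, 0 ≤ p ω) (_hp1 : ∑ ω, p ω = 1)
      (D : Ω → EDS k u c) (_hs : ∀ ω, (D ω).space ≤ s)
      (V : Ω → Fin W → Fin k → Fin k → XT.Tree c Bool)
      (_hcomp : ∀ X Y : Fin k → Finset (Fin u), ∑ i, (X i).card + ∑ j, (Y j).card ≤ N →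
        ∀ i j : Fin k, ¬ (X i ∩ Y j).Nonempty →
        ∃ w, 1 / 2 + δ ≤ ∑ ω, p ω * ind ((ct t (V ω w i j)).out ((D ω).bit X Y) = true))
      (_hsound : ∀ X Y : Fin k → Finset (Fin u), ∑ i, (X i).card + ∑ j, (Y j).card ≤ N →
        ∀ i j : Fin k, (X i ∩ Y j).Nonempty →
        ∀ w, ∑ ω, p ω * ind ((ct t (V ω w i j)).out ((D ω).bit X Y) = true) ≤ 1 / 2 - δ),
      δ ^ 10 * (N : ℝ) ^ 2 ≤
        10 ^ 20 * (t : ℝ) ^ 4 * ((Nat.log 2 W : ℝ) + 1) ^ 5 * ((s : ℝ) + 1) := by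
  classical
  obtain ⟨K, hK1, hK2, hK3, hK4⟩ := choose_K (W := W) hδ hδ2
  obtain ⟨T, hT⟩ : ∃ T : ℕ, T = 2 * (K * t) := ⟨_, rfl⟩
  obtain ⟨m, hm⟩ : ∃ m : ℕ, m = 1400 * T := ⟨_, rfl⟩
  obtain ⟨n, hn⟩ : ∃ n : ℕ, n = m ^ 2 := ⟨_, rfl⟩
  obtain ⟨q, hq⟩ : ∃ q : ℕ, q = 100 * T := ⟨_, rfl⟩
  have hKt : 1 ≤ K * t := Nat.one_le_iff_ne_zero.2 (by positivity)
  have hT1 : 1 ≤ T := by omega
  have hT1' : (1 : ℝ) ≤ T := by exact_mod_cast hT1
  have htT : t ≤ T := by
    have : t ≤ K * t := Nat.le_mul_of_pos_left _ (by omega)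
    omega
  have hK0 : (0 : ℝ) ≤ K := by positivity
  have hL0 : (1 : ℝ) ≤ (Nat.log 2 W : ℝ) + 1 := by
    have : (0 : ℝ) ≤ Nat.log 2 W := Nat.cast_nonneg _
    linarith
  obtain ⟨L, hL⟩ : ∃ L, L = (Nat.log 2 W : ℝ) + 1 := ⟨_, rfl⟩
  rw [← hL] at hK2 hL0 ⊢
  have hTr : (T : ℝ) = 2 * (K * t) := by rw [hT]; push_cast; ring
  have hn' : (n : ℝ) = 1960000 * (T : ℝ) ^ 2 := by
    rw [hn, hm]
    push_cast
    ring
  obtain ⟨k, hk⟩ : ∃ k : ℕ, k = N / (4 * (q + 2)) := ⟨_, rfl⟩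
  have hN1 : k * (4 * (q + 2)) ≤ N := by rw [hk]; exact Nat.div_mul_le_self _ _
  have hvu : vv n q = 1960000 * T ^ 2 + 200 * T + 2 := by
    unfold vv
    rw [hn, hm, hq]
    ring
  refine ⟨k, vv n q, ?_, ?_, ?_⟩
  · refine le_trans ?_ hN1
    rw [hq]
    calc 400 * t * k = k * (400 * t) := by ring
      _ ≤ _ := Nat.mul_le_mul_left _ (by omega)
  · rw [hvu]
    push_cast
    have hKδ2 : (δ ^ 2 * (K : ℝ)) ^ 2 ≤ (7 * L) ^ 2 := pow_le_pow_left₀ (by positivity) hK2 2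
    have h1 : 1960000 * (T : ℝ) ^ 2 + 200 * T + 2 ≤ 2000000 * (T : ℝ) ^ 2 := by nlinarith
    calc δ ^ 4 * (1960000 * (T : ℝ) ^ 2 + 200 * T + 2) ≤ δ ^ 4 * (2000000 * (T : ℝ) ^ 2) :=
          mul_le_mul_of_nonneg_left h1 (by positivity)
      _ = 8000000 * (t : ℝ) ^ 2 * (δ ^ 2 * (K : ℝ)) ^ 2 := by rw [hTr]; ring
      _ ≤ 8000000 * (t : ℝ) ^ 2 * (7 * L) ^ 2 := mul_le_mul_of_nonneg_left hKδ2 (by positivity)
      _ = 392000000 * ((t : ℝ) ^ 2 * L ^ 2) := by ring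
      _ ≤ 10 ^ 9 * ((t : ℝ) ^ 2 * L ^ 2) := by
          apply mul_le_mul_of_nonneg_right (by norm_num)
          positivity
      _ = _ := by ring
  intro c s Ω _ p hp hp1 D hs V hcomp hsound
  have hs0 : (0 : ℝ) ≤ s := by positivity
  have hKδ : δ ^ 10 * (K : ℝ) ^ 5 ≤ 16807 * L ^ 5 := by
    calc δ ^ 10 * (K : ℝ) ^ 5 = (δ ^ 2 * K) ^ 5 := by ring
      _ ≤ (7 * L) ^ 5 := pow_le_pow_left₀ (by positivity) hK2 5
      _ = _ := by ring
  have hfin : (N : ℝ) ^ 2 ≤ 1000000000000000 * (K : ℝ) ^ 5 * ((t : ℝ) ^ 4 * (s + 1)) →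
      δ ^ 10 * (N : ℝ) ^ 2 ≤ 10 ^ 20 * (t : ℝ) ^ 4 * L ^ 5 * ((s : ℝ) + 1) := by
    intro h
    have h4 : (0 : ℝ) ≤ (t : ℝ) ^ 4 * (s + 1) := by positivity
    calc δ ^ 10 * (N : ℝ) ^ 2 ≤
          δ ^ 10 * (1000000000000000 * (K : ℝ) ^ 5 * ((t : ℝ) ^ 4 * (s + 1))) :=
          mul_le_mul_of_nonneg_left h (by positivity)
      _ = 1000000000000000 * (δ ^ 10 * (K : ℝ) ^ 5) * ((t : ℝ) ^ 4 * (s + 1)) := by ring
      _ ≤ 1000000000000000 * (16807 * L ^ 5) * ((t : ℝ) ^ 4 * (s + 1)) := by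
          apply mul_le_mul_of_nonneg_right _ h4
          exact mul_le_mul_of_nonneg_left hKδ (by positivity)
      _ = 16807000000000000000 * (L ^ 5 * ((t : ℝ) ^ 4 * (s + 1))) := by ring
      _ ≤ 10 ^ 20 * (L ^ 5 * ((t : ℝ) ^ 4 * (s + 1))) := by
          apply mul_le_mul_of_nonneg_right (by norm_num)
          positivity
      _ = _ := by ring
  have hK1' : (1 : ℝ) ≤ K := by exact_mod_cast hK1
  apply hfin
  by_cases hNn : N < 4 * n
  · have h1 : (N : ℝ) ≤ 4 * n := by exact_mod_cast hNn.le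
    rw [hn'] at h1
    calc (N : ℝ) ^ 2 ≤ (4 * (1960000 * (T : ℝ) ^ 2)) ^ 2 :=
          pow_le_pow_left₀ (by positivity) h1 2
      _ = 983449600000000 * ((K : ℝ) ^ 4 * 1) * ((t : ℝ) ^ 4 * 1) := by rw [hTr]; ring
      _ ≤ 1000000000000000 * ((K : ℝ) ^ 4 * K) * ((t : ℝ) ^ 4 * (s + 1)) := by
          have h5 : (K : ℝ) ^ 4 * 1 ≤ (K : ℝ) ^ 4 * K :=
            mul_le_mul_of_nonneg_left hK1' (by positivity)
          have h6 : (t : ℝ) ^ 4 * 1 ≤ (t : ℝ) ^ 4 * (s + 1) :=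
            mul_le_mul_of_nonneg_left (by linarith) (by positivity)
          apply mul_le_mul _ h6 (by positivity) (by positivity)
          exact mul_le_mul (by norm_num) h5 (by positivity) (by norm_num)
      _ = _ := by ring
  · push Not at hNn
    have hqn : q + 2 ≤ n := by
      rw [hn, hm, hq]
      have h3 : (1400 * T) ^ 2 = 1960000 * T ^ 2 := by ring
      have h4 : T ≤ T ^ 2 := by nlinarith
      rw [h3]
      omega
    have hk1 : 1 ≤ k := by
      rw [hk]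
      rw [Nat.one_le_div_iff (by omega)]
      omega
    have hsize : ∀ (i0 j0 : Fin k) (x y : AA n k q),
        ∑ i, (famX i0 x i).card + ∑ j, (famY j0 y j).card ≤ N := by
      intro i0 j0 x y
      have h1 := sizeX i0 x
      have h2 := sizeY j0 y
      have h3 : k * (4 * (q + 2)) = 4 * (k * (q + 2)) := by ring
      omega
    have hN2 : N ≤ (k + 1) * (4 * (q + 2)) := by
      have := Nat.lt_div_mul_add (a := N) (b := 4 * (q + 2)) (by omega)
      rw [← hk] at this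
      have h2 : (k + 1) * (4 * (q + 2)) = k * (4 * (q + 2)) + 4 * (q + 2) := by ring
      omega
    have hN2' : (N : ℝ) ≤ ((k : ℝ) + 1) * (4 * ((q : ℝ) + 2)) := by exact_mod_cast hN2
    choose M hM hMval using fun ω => e_exists_mem (k := k) (q := q) (n := n) (D ω)
    have h := engine (k := k) (q := q) (n := n) (W := W) (s := s) ht hK1 hT hm hn hq p hp hp1 M
      (fun ω => (hM ω).trans (hs ω)) (fun ω w pr => V ω w pr.1 pr.2) hδ hδ2
      (by
        intro pr x y hd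
        obtain ⟨w, hw⟩ := hcomp (famX pr.1 x) (famY pr.2 y) (hsize _ _ _ _) pr.1 pr.2 (by
            rw [pair_iff]
            exact not_not.2 hd)
        refine ⟨w, hw.trans (le_of_eq ?_)⟩
        refine Finset.sum_congr rfl fun ω _ => ?_
        rw [hMval ω pr x y])
      (by
        intro pr x y hd w
        have hw := hsound (famX pr.1 x) (famY pr.2 y) (hsize _ _ _ _) pr.1 pr.2 (by
            rw [pair_iff]
            exact hd) w
        refine le_trans (le_of_eq ?_) hw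
        refine Finset.sum_congr rfl fun ω _ => ?_
        rw [hMval ω pr x y])
      hK3 (hK4 t ht)
    have hk1' : (1 : ℝ) ≤ k := by exact_mod_cast hk1
    have hq' : (q : ℝ) = 100 * T := by rw [hq]; push_cast; ring
    have hN4 : (N : ℝ) ≤ 816 * (T : ℝ) * k := by
      refine hN2'.trans ?_
      rw [hq']
      have h1 : (k : ℝ) + 1 ≤ 2 * k := by linarith
      have h2 : 4 * (100 * (T : ℝ) + 2) ≤ 408 * T := by linarith
      calc ((k : ℝ) + 1) * (4 * (100 * (T : ℝ) + 2)) ≤ 2 * k * (408 * T) :=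
            mul_le_mul h1 h2 (by positivity) (by positivity)
        _ = _ := by ring
    calc (N : ℝ) ^ 2 ≤ (816 * (T : ℝ) * k) ^ 2 := pow_le_pow_left₀ (by positivity) hN4 2
      _ = 665856 * (T : ℝ) ^ 2 * (k : ℝ) ^ 2 := by ring
      _ ≤ 665856 * (T : ℝ) ^ 2 * (4 * ((K * s : ℕ) * (q : ℝ) ^ 2)) :=
          mul_le_mul_of_nonneg_left h (by positivity)
      _ = 426147840000 * ((K : ℝ) ^ 5 * ((t : ℝ) ^ 4 * s)) := by
          rw [hq', hTr]
          push_cast
          ring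
      _ ≤ 1000000000000000 * ((K : ℝ) ^ 5 * ((t : ℝ) ^ 4 * (s + 1))) := by
          apply mul_le_mul (by norm_num) _ (by positivity) (by norm_num)
          apply mul_le_mul_of_nonneg_left _ (by positivity)
          exact mul_le_mul_of_nonneg_left (by linarith) (by positivity)
      _ = _ := by ring

/-! ### cells -/

variable {u r d W : ℕ} {Γ : Type}

/-- the memory as a table of cells -/
def ememDS (D : EProofDS k u c r d W Γ) : ECell k u c r d Γ :=
  ⟨D.P, D.f, D.g, D.talk, D.make, fun _ _ => CTree.answer false⟩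

/-- the verification as a tree of bit probes -/
noncomputable def everT (D : EProofDS k u c r d W Γ) (w : Fin W) (i j : Fin k) :
    XT.Tree (Fintype.card (Idx c r d)) Bool :=
  sim (fun σ l => idx c r d (σ, Sum.inl l)) (fun σ h => idx c r d (σ, Sum.inr h)) D.make
    (D.verify w i j)

theorem everT_out (D : EProofDS k u c r d W Γ) (A B : Fin k → Finset (Fin u)) (w : Fin W)
    (i j : Fin k) :
    (everT D w i j).out ((esimDS (ememDS D)).bit A B) = (D.verify w i j).out (D.cell A B) :=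
  sim_out D.talk A B _ _ _ D.make (D.bit A B) (esimDS_inl (ememDS D) A B)
    (esimDS_inr (ememDS D) A B) (D.verify w i j)

theorem everT_probes (D : EProofDS k u c r d W Γ) (A B : Fin k → Finset (Fin u)) (w : Fin W)
    (i j : Fin k) :
    (everT D w i j).probes ((esimDS (ememDS D)).bit A B) =
      (r + d) * (D.verify w i j).probes (D.cell A B) :=
  sim_probes D.talk A B _ _ _ D.make (D.bit A B) (esimDS_inl (ememDS D) A B)
    (esimDS_inr (ememDS D) A B) (D.verify w i j)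

theorem e_cells (N t r d W : ℕ) (ht : 1 ≤ t) (hr : 1 ≤ r) (δ : ℝ) (hδ : 0 < δ)
    (hδ2 : δ ≤ 1 / 2) :
    ∃ k u : ℕ, 400 * ((r + d) * t) * k ≤ N ∧
      δ ^ 4 * (u : ℝ) ≤ 10 ^ 9 * (((r : ℝ) + d) * t) ^ 2 * ((Nat.log 2 W : ℝ) + 1) ^ 2 ∧
    ∀ (c s : ℕ) (Γ Ω : Type) [Fintype Ω] (p : Ω → ℝ) (D : Ω → EProofDS k u c r d W Γ),
      (∀ ω, (D ω).space ≤ s) → EVerifies N p D t δ →
      δ ^ 10 * (N : ℝ) ^ 2 ≤
        10 ^ 20 * (((r : ℝ) + d) * t) ^ 4 * ((Nat.log 2 W : ℝ) + 1) ^ 5 * (r * s + 1) := by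
  classical
  obtain ⟨k, u, h1, h2, h3⟩ := e_bits N ((r + d) * t) W (Nat.one_le_iff_ne_zero.2 (by positivity))
    hδ hδ2
  refine ⟨k, u, h1, ?_, ?_⟩
  · push_cast at h2
    exact h2
  intro c s Γ Ω _ p D hs hD
  obtain ⟨hp, hp1, hcor⟩ := hD
  have hrd : 0 < r + d := by omega
  have key : ∀ (A B : Fin k → Finset (Fin u)) (i j : Fin k) (w : Fin W),
      ∑ ω, p ω * ind ((ct ((r + d) * t) (everT (D ω) w i j)).out
        ((esimDS (ememDS (D ω))).bit A B) = true) =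
          ∑ ω with (D ω).Accepts t A B i j w, p ω := by
    intro A B i j w
    rw [Finset.sum_filter]
    refine Finset.sum_congr rfl fun ω _ => ?_
    have h1 : (ct ((r + d) * t) (everT (D ω) w i j)).out ((esimDS (ememDS (D ω))).bit A B) =
        true ↔ (D ω).Accepts t A B i j w := by
      rw [ct_iff, everT_out, everT_probes]
      unfold EProofDS.Accepts
      rw [Nat.mul_le_mul_left_iff hrd]
    by_cases h : (D ω).Accepts t A B i j w
    · rw [if_pos h, ind_true (h1.2 h), mul_one]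
    · rw [if_neg h, ind_false (fun h' => h (h1.1 h')), mul_zero]
  have h := h3 (Fintype.card (Idx c r d)) (r * s) Ω p hp hp1 (fun ω => esimDS (ememDS (D ω)))
    (fun ω => esimDS_space (ememDS (D ω)) (hs ω)) (fun ω w i j => everT (D ω) w i j)
    (by
      intro A B hAB i j hz
      obtain ⟨w, hw⟩ := (hcor A B hAB i j).1 hz
      refine ⟨w, ?_⟩
      rw [key]
      exact hw)
    (by
      intro A B hAB i j hz w
      rw [key]
      exact (hcor A B hAB i j).2 hz w)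
  push_cast at h
  exact h

end Pool.Agent.Run7.h412.MA
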