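import Pool.Agent.Run7.h412.MA.Engine

/-!
# Proofs and random verification: the number of copies
-/

set_option autoImplicit false

namespace Pool.Agent.Run7.h412.MA

open Pool.Agent.R563 Pool.Agent.N631.SX

theorem exp12' : Real.exp (-12) ≤ 1 / 100000 := Pool.Agent.N631.LX.exp12

theorem choose_K {W : ℕ} {δ : ℝ} (hδ : 0 < δ) (hδ2 : δ ≤ 1 / 2) :
    ∃ K : ℕ, 1 ≤ K ∧ δ ^ 2 * K ≤ 7 * ((Nat.log 2 W : ℝ) + 1) ∧
      (1 - 2 * δ ^ 2) ^ K ≤ 1 / 4 ∧
      ∀ t : ℕ, 1 ≤ t → W * ((1 - 2 * δ ^ 2) ^ K + 3 / 10000 * (1 / 2 : ℝ) ^ (K * t)) ≤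
        1 / 1000 := by
  obtain ⟨L, hL⟩ : ∃ L, L = Nat.log 2 W := ⟨_, rfl⟩
  rw [← hL]
  have hWL : (W : ℝ) ≤ 2 ^ (L + 1) := by
    have : W < 2 ^ (L + 1) := by rw [hL]; exact Nat.lt_pow_succ_log_self (by norm_num) W
    exact_mod_cast this.le
  have hδ3 : 0 < δ ^ 2 := by positivity
  have hδ4 : δ ^ 2 ≤ 1 / 4 := by nlinarith
  have hL0 : (0 : ℝ) ≤ L := Nat.cast_nonneg _
  obtain ⟨K, hK⟩ : ∃ K : ℕ, K = ⌈((L : ℝ) + 12) / (2 * δ ^ 2)⌉₊ := ⟨_, rfl⟩
  have hK1 : ((L : ℝ) + 12) / (2 * δ ^ 2) ≤ K := by rw [hK]; exact Nat.le_ceil _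
  have hK2 : (L : ℝ) + 12 ≤ 2 * δ ^ 2 * K := by
    rw [div_le_iff₀ (by positivity)] at hK1
    linarith
  have hK3 : (K : ℝ) * δ ^ 2 ≤ ((L : ℝ) + 12) / 2 + δ ^ 2 := by
    have h1 := Nat.ceil_lt_add_one (show (0 : ℝ) ≤ ((L : ℝ) + 12) / (2 * δ ^ 2) by positivity)
    rw [← hK] at h1
    have h2 := mul_le_mul_of_nonneg_right h1.le hδ3.le
    rw [add_mul, one_mul] at h2
    have h3 : ((L : ℝ) + 12) / (2 * δ ^ 2) * δ ^ 2 = ((L : ℝ) + 12) / 2 := by
      field_simp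
    rw [h3] at h2
    exact h2
  have hK4 : (L : ℝ) + 12 ≤ K := by
    have h1 : 2 * δ ^ 2 * K ≤ K := by
      have : (0 : ℝ) ≤ K := Nat.cast_nonneg _
      nlinarith
    linarith
  have hK5 : L + 12 ≤ K := by exact_mod_cast hK4
  have he0 : (0 : ℝ) ≤ 1 - 2 * δ ^ 2 := by linarith
  have he : (1 - 2 * δ ^ 2) ^ K ≤ Real.exp (-(L + 12)) := by
    have h1 : 1 - 2 * δ ^ 2 ≤ Real.exp (-(2 * δ ^ 2)) := by
      have := Real.add_one_le_exp (-(2 * δ ^ 2))
      linarith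
    calc (1 - 2 * δ ^ 2) ^ K ≤ Real.exp (-(2 * δ ^ 2)) ^ K := pow_le_pow_left₀ he0 h1 _
      _ = Real.exp (-(2 * δ ^ 2 * K)) := by
          rw [← Real.exp_nat_mul]
          congr 1
          ring
      _ ≤ _ := by
          apply Real.exp_le_exp.2
          linarith
  have he2 : Real.exp (-((L : ℝ) + 12)) ≤ (1 / 2 : ℝ) ^ L * (1 / 100000) := by
    have h1 : Real.exp (-((L : ℝ) + 12)) = Real.exp (-1) ^ L * Real.exp (-12) := by
      rw [← Real.exp_nat_mul, ← Real.exp_add]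
      congr 1
      ring
    rw [h1]
    apply mul_le_mul _ exp12' (Real.exp_pos _).le (by positivity)
    apply pow_le_pow_left₀ (Real.exp_pos _).le
    have h2 : (2 : ℝ) ≤ Real.exp 1 := by
      have := Real.add_one_le_exp (1 : ℝ)
      linarith
    rw [Real.exp_neg]
    rw [one_div]
    exact inv_anti₀ (by norm_num) h2
  have hhalf : (1 / 2 : ℝ) ^ L ≤ 1 := pow_le_one₀ (by norm_num) (by norm_num)
  have h2L : (2 : ℝ) ^ L * (1 / 2 : ℝ) ^ L = 1 := by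
    rw [← mul_pow]
    norm_num
  refine ⟨K, by omega, ?_, ?_, ?_⟩
  · rw [mul_comm]
    refine hK3.trans ?_
    linarith
  · refine (he.trans he2).trans ?_
    linarith
  · intro t ht
    have hW0 : (0 : ℝ) ≤ W := Nat.cast_nonneg _
    have h1 : (1 / 2 : ℝ) ^ (K * t) ≤ (1 / 2 : ℝ) ^ L := by
      apply pow_le_pow_of_le_one (by norm_num) (by norm_num)
      have : K ≤ K * t := Nat.le_mul_of_pos_right _ (by omega)
      omega
    have h3 : (1 / 2 : ℝ) ^ (K * t) ≤ (1 / 2 : ℝ) ^ L * (1 / 4096) := by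
      have h4 : (1 / 2 : ℝ) ^ (K * t) ≤ (1 / 2 : ℝ) ^ (L + 12) := by
        apply pow_le_pow_of_le_one (by norm_num) (by norm_num)
        have : K ≤ K * t := Nat.le_mul_of_pos_right _ (by omega)
        omega
      refine h4.trans (le_of_eq ?_)
      rw [pow_add]
      norm_num
    have h4 : (1 - 2 * δ ^ 2) ^ K + 3 / 10000 * (1 / 2 : ℝ) ^ (K * t) ≤
        (1 / 2 : ℝ) ^ L * (1 / 10000) := by
      have := he.trans he2
      have h5 : 0 ≤ (1 / 2 : ℝ) ^ L := by positivity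
      linarith
    calc (W : ℝ) * ((1 - 2 * δ ^ 2) ^ K + 3 / 10000 * (1 / 2 : ℝ) ^ (K * t)) ≤
          2 ^ (L + 1) * ((1 / 2 : ℝ) ^ L * (1 / 10000)) := by
          apply mul_le_mul hWL h4 _ (by positivity)
          have : 0 ≤ (1 - 2 * δ ^ 2) ^ K := pow_nonneg he0 _
          positivity
      _ = 2 * (2 ^ L * (1 / 2 : ℝ) ^ L) * (1 / 10000) := by rw [pow_succ]; ring
      _ ≤ 1 / 1000 := by rw [h2L]; norm_num

/-- truncated trees -/
theorem ct_true {c : ℕ} (b : Fin c → Bool) : ∀ (T : XT.Tree c Bool) (m : ℕ),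
    (ct m T).out b = true → T.out b = true ∧ T.probes b ≤ m := by
  intro T
  induction T with
  | answer o =>
    intro m h
    cases m <;> simpa [ct, XT.Tree.out, XT.Tree.probes] using h
  | probe σ nx ih =>
    intro m h
    cases m with
    | zero => simp [ct, XT.Tree.out] at h
    | succ m =>
      simp only [ct, XT.Tree.out] at h
      obtain ⟨h1, h2⟩ := ih (b σ) m h
      refine ⟨h1, ?_⟩
      simp only [XT.Tree.probes]
      omega

theorem ct_iff {c : ℕ} (b : Fin c → Bool) (T : XT.Tree c Bool) (m : ℕ) :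
    (ct m T).out b = true ↔ T.out b = true ∧ T.probes b ≤ m :=
  ⟨ct_true b T m, fun h => by rw [ct_out b T m h.2]; exact h.1⟩

end Pool.Agent.Run7.h412.MA
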