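import Pool.Agent.N631.SX.Amp

/-!
# Proofs and random verification: the corruption inequality and the averaging argument
-/

set_option autoImplicit false

namespace Pool.Agent.Run7.h412.MA

open Pool.Agent.W959 Pool.Agent.W959.Ent Pool.Agent.TH457.EntD Pool.Agent.N631.LX
open Pool.Agent.R563 Pool.Agent.N631.SX

variable {k q n : ℕ}

/-! ### trees -/

/-- the opposite answers -/
def negT {c : ℕ} : XT.Tree c Bool → XT.Tree c Bool
  | XT.Tree.answer o => XT.Tree.answer (!o)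
  | XT.Tree.probe σ nx => XT.Tree.probe σ (fun b => negT (nx b))

theorem negT_out {c : ℕ} (b : Fin c → Bool) (T : XT.Tree c Bool) :
    (negT T).out b = !(T.out b) := by
  induction T with
  | answer o => rfl
  | probe σ nx ih =>
    simp only [negT, XT.Tree.out]
    exact ih _

theorem negT_dep {c : ℕ} (T : XT.Tree c Bool) : dep (negT T) = dep T := by
  induction T with
  | answer o => rfl
  | probe σ nx ih => simp only [negT, dep, ih]

/-! ### the corruption inequality for one tree -/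

theorem tree_corr {R : ℕ} (c : Fin R → Fin k → Fin k → ZMod 2)
    (f g : Fin R → AA n k q → ZMod 2) (i0 j0 : Fin k) {t m a : ℕ} (ht : 1 ≤ t)
    (hm : m = 1400 * t) (hn : n = m ^ 2) (hqt : q = 100 * t)
    (W : Submodule (ZMod 2) (Fin k → Fin k → ZMod 2)) (hW : ∀ l, c l ∈ W)
    (hgood : ∀ w ∈ W, light q w i0 j0 → w i0 j0 = 0)
    (T : XT.Tree R Bool) (hT : dep T + a ≤ t) :
    EE (1 / (m : ℝ)) (fun x y => ind (
      T.out (fun l => decide (bt c f g i0 j0 l x y = 1)) = false) * ind (conj x.1 y.1 = zero n)) ≤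
      9634 / 10000 * EE (1 / (m : ℝ)) (fun x y => ind (
        T.out (fun l => decide (bt c f g i0 j0 l x y = 1)) = false)) +
        3 / 10000 * (1 / 2 : ℝ) ^ a := by
  have hm12 : 1200 ≤ m := by rw [hm]; omega
  have hm10 : 10 ≤ m := by omega
  have hq : 1 ≤ q := by omega
  have hm' : (1200 : ℝ) ≤ m := by exact_mod_cast hm12
  have hm0 : (0 : ℝ) < m := by linarith
  have hinv : 1 / (m : ℝ) ≤ 1 / 10 := by
    apply one_div_le_one_div_of_le <;> linarith
  have hinv0 : 0 ≤ 1 / (m : ℝ) := by positivity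
  have hr1 : 0 ≤ 1 - 1 / (m : ℝ) := by linarith
  have hme : 100 * ((2 * t + 12 : ℕ) : ℝ) ≤ m := by
    have : 100 * (2 * t + 12) ≤ m := by
      rw [hm]
      omega
    exact_mod_cast this
  obtain ⟨e, he⟩ : ∃ e : ℝ, e = ((2 * t + 12 : ℕ) : ℝ) := ⟨_, rfl⟩
  rw [← he] at hme
  obtain ⟨α, hα⟩ : ∃ α : ℝ, α = 2 ^ (e * (1 / ((m : ℝ) + 1))) := ⟨_, rfl⟩
  obtain ⟨β, hβ⟩ : ∃ β : ℝ, β = 2 ^ (-e * (1 - 1 / ((m : ℝ) + 1))) := ⟨_, rfl⟩
  have hα0 : 0 ≤ α := by rw [hα]; positivity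
  have hβ0 : 0 ≤ β := by rw [hβ]; positivity
  have hα1 : α ≤ 1007 / 1000 := by rw [hα]; exact two_rpow_le hme
  have hβ1 : β * 2 ^ t * 2 ^ t ≤ 1007 / 1000 * (1 / 4096) := by
    have h1 : β * 2 ^ t * 2 ^ t = α * (1 / 4096) := by
      rw [hα, hβ, mul_assoc, ← pow_add, ← Real.rpow_natCast, ← Real.rpow_add (by norm_num),
        show (1 / 4096 : ℝ) = 2 ^ (-12 : ℝ) by
          rw [Real.rpow_neg (by norm_num)]; norm_num,
        ← Real.rpow_add (by norm_num)]
      congr 1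
      rw [he]
      push_cast
      ring
    rw [h1]
    exact mul_le_mul_of_nonneg_right hα1 (by norm_num)
  obtain ⟨κ, hκ⟩ : ∃ κ : ℝ, κ = (1 - 1 / (22 * (m : ℝ) ^ 2)) ^ n := ⟨_, rfl⟩
  have hκ0 : 0 ≤ κ := by
    rw [hκ]
    apply pow_nonneg
    have : 1 / (22 * (m : ℝ) ^ 2) ≤ 1 := by
      rw [div_le_one (by positivity)]
      nlinarith
    linarith
  have hκ1 : κ ≤ 22 / 23 := by
    rw [hκ, hn]
    exact gamma_le hm10
  obtain ⟨ε, hε⟩ : ∃ ε : ℝ, ε = Real.exp (-((t : ℝ) + 12)) := ⟨_, rfl⟩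
  have hε0 : 0 ≤ ε := by rw [hε]; positivity
  have hε2 : (7 / 10 : ℝ) ^ q ≤ ε ^ 2 := by
    have h1 : (7 / 10 : ℝ) ≤ Real.exp (-(3 / 10 : ℝ)) := by
      have := Real.add_one_le_exp (-(3 / 10 : ℝ))
      linarith
    have ht' : (1 : ℝ) ≤ t := by exact_mod_cast ht
    calc (7 / 10 : ℝ) ^ q ≤ Real.exp (-(3 / 10 : ℝ)) ^ q :=
          pow_le_pow_left₀ (by norm_num) h1 _
      _ = Real.exp (-(30 * (t : ℝ))) := by
          rw [← Real.exp_nat_mul, hqt]
          congr 1
          push_cast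
          ring
      _ ≤ Real.exp (-(2 * ((t : ℝ) + 12))) := by
          apply Real.exp_le_exp.2
          linarith
      _ = ε ^ 2 := by
          rw [hε, ← Real.exp_nat_mul]
          congr 1
          push_cast
          ring
  have h1 := tree_bound c f g i0 j0 hm10 hq (t := t) W hW hgood hα0 hβ0 hε0 hε2
    (fun P hP => by rw [hα, hβ]; exact holder_leaf hm10 e P hP) T [] (by simp; omega)
  have e0 : ∀ x y, Pool.Agent.N631.SX.onp c f g i0 j0 [] x y ↔ True := fun x y => by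
    simp [Pool.Agent.N631.SX.onp]
  simp only [e0, true_and, ← hκ] at h1
  -- the error terms
  have h4 : (2 : ℝ) ^ dep T * (κ * (α * ε + β * 2 ^ t) + ε) ≤ 3 / 10000 * (1 / 2 : ℝ) ^ a := by
    have h5 : (2 : ℝ) ^ dep T ≤ 2 ^ t * (1 / 2 : ℝ) ^ a := by
      have h6 : (2 : ℝ) ^ (dep T + a) ≤ 2 ^ t := pow_le_pow_right₀ (by norm_num) hT
      rw [pow_add] at h6
      have h7 : (0 : ℝ) < (1 / 2 : ℝ) ^ a := by positivity
      have h8 : (2 : ℝ) ^ a * (1 / 2 : ℝ) ^ a = 1 := by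
        rw [← mul_pow]
        norm_num
      calc (2 : ℝ) ^ dep T = 2 ^ dep T * (2 ^ a * (1 / 2 : ℝ) ^ a) := by rw [h8, mul_one]
        _ = 2 ^ dep T * 2 ^ a * (1 / 2 : ℝ) ^ a := by ring
        _ ≤ _ := mul_le_mul_of_nonneg_right h6 h7.le
    have h6 : (2 : ℝ) ^ t * ε ≤ 1 / 100000 := by
      have h7 : (2 : ℝ) ^ t ≤ Real.exp t := by
        calc (2 : ℝ) ^ t ≤ Real.exp 1 ^ t := by
              apply pow_le_pow_left₀ (by norm_num)
              have := Real.add_one_le_exp (1 : ℝ)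
              linarith
          _ = Real.exp t := by
              rw [← Real.exp_nat_mul]
              simp
      calc (2 : ℝ) ^ t * ε ≤ Real.exp t * ε := mul_le_mul_of_nonneg_right h7 hε0
        _ = Real.exp (-12) := by
            rw [hε, ← Real.exp_add]
            congr 1
            ring
        _ ≤ _ := exp12
    have h7 : κ * (α * ε + β * 2 ^ t) + ε ≤ (α * ε + β * 2 ^ t) + ε := by
      have : 0 ≤ α * ε + β * 2 ^ t := by positivity
      nlinarith
    have h8 : 0 ≤ κ * (α * ε + β * 2 ^ t) + ε := by positivity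
    have h9 : 2 ^ t * ((α * ε + β * 2 ^ t) + ε) ≤ 3 / 10000 := by
      calc (2 : ℝ) ^ t * ((α * ε + β * 2 ^ t) + ε)
          = (α + 1) * (2 ^ t * ε) + β * 2 ^ t * 2 ^ t := by ring
        _ ≤ (1007 / 1000 + 1) * (1 / 100000) + 1007 / 1000 * (1 / 4096) := by
            have : 0 ≤ (2 : ℝ) ^ t * ε := by positivity
            have h9 : (α + 1) * (2 ^ t * ε) ≤ (1007 / 1000 + 1) * (1 / 100000) :=
              mul_le_mul (by linarith) h6 this (by norm_num)
            linarith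
        _ ≤ _ := by norm_num
    calc (2 : ℝ) ^ dep T * (κ * (α * ε + β * 2 ^ t) + ε)
        ≤ (2 ^ t * (1 / 2 : ℝ) ^ a) * ((α * ε + β * 2 ^ t) + ε) := by
          apply mul_le_mul h5 h7 h8 (by positivity)
      _ = 2 ^ t * ((α * ε + β * 2 ^ t) + ε) * (1 / 2 : ℝ) ^ a := by ring
      _ ≤ _ := mul_le_mul_of_nonneg_right h9 (by positivity)
  have h5 : κ * α ≤ 9634 / 10000 := by
    calc κ * α ≤ 22 / 23 * (1007 / 1000) := mul_le_mul hκ1 hα1 hα0 (by norm_num)
      _ ≤ _ := by norm_num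
  have h6 := mul_le_mul_of_nonneg_right h5 (show 0 ≤ EE (1 / (m : ℝ)) (fun x y => ind (
      T.out (fun l => decide (bt c f g i0 j0 l x y = 1)) = false)) from
    EE_nonneg hinv0 hr1 fun x y => ind_nonneg _)
  linarith

/-! ### Chernoff -/

section prob

variable {Ω : Type} [Fintype Ω] (p : Ω → ℝ)

/-- products of independent copies -/
theorem prod_E (v : Ω → ℝ) (K : ℕ) :
    ∑ ω : Fin K → Ω, (∏ l, p (ω l)) * ∏ l, v (ω l) = (∑ ω, p ω * v ω) ^ K := by
  classical
  have h5 := Finset.prod_univ_sum (fun _ : Fin K => (Finset.univ : Finset Ω))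
    (fun _ ω => p ω * v ω)
  rw [Fintype.piFinset_univ] at h5
  rw [Finset.prod_const, Finset.card_univ, Fintype.card_fin] at h5
  rw [h5]
  refine Finset.sum_congr rfl fun ω _ => ?_
  rw [Finset.prod_mul_distrib]

/-- the probability that at least half of the copies are bad -/
theorem chernoff (hp : ∀ ω, 0 ≤ p ω) (hp1 : ∑ ω, p ω = 1) (bad : Ω → Prop) {δ : ℝ}
    (hδ : 0 < δ) (hbad : ∑ ω, p ω * ind (bad ω) ≤ 1 / 2 - δ) (K : ℕ) :
    ∑ ω : Fin K → Ω, (∏ l, p (ω l)) * ind ((K : ℝ) ≤ 2 * ∑ i, ind (bad (ω i))) ≤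
      (1 - 2 * δ ^ 2) ^ K := by
  classical
  obtain ⟨μ, hμ⟩ : ∃ μ, μ = ∑ ω, p ω * ind (bad ω) := ⟨_, rfl⟩
  rw [← hμ] at hbad
  have hμ0 : 0 ≤ μ := by
    rw [hμ]
    exact Finset.sum_nonneg fun ω _ => mul_nonneg (hp ω) (ind_nonneg _)
  obtain ⟨ρ, hρ⟩ : ∃ ρ : ℝ, ρ = 1 + 2 * δ := ⟨_, rfl⟩
  have hρ1 : 1 ≤ ρ := by rw [hρ]; linarith
  have hρ0 : 0 < ρ := by linarith
  let v : Ω → ℝ := fun ω => if bad ω then ρ else ρ⁻¹
  have hv0 : ∀ ω, 0 ≤ v ω := by
    intro ω
    simp only [v]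
    split_ifs
    · exact hρ0.le
    · exact inv_nonneg.2 hρ0.le
  have hv : ∑ ω, p ω * v ω ≤ 1 - 2 * δ ^ 2 := by
    have h1 : ∀ ω, p ω * v ω = p ω * ind (bad ω) * (ρ - ρ⁻¹) + p ω * ρ⁻¹ := by
      intro ω
      simp only [v]
      by_cases h : bad ω
      · rw [if_pos h, ind_true h]; ring
      · rw [if_neg h, ind_false h]; ring
    rw [Finset.sum_congr rfl fun ω _ => h1 ω, Finset.sum_add_distrib, ← Finset.sum_mul,
      ← Finset.sum_mul, ← hμ, hp1, one_mul]
    have h2 : 0 ≤ ρ - ρ⁻¹ := by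
      have : ρ⁻¹ ≤ 1 := inv_le_one_of_one_le₀ hρ1
      linarith
    have h3 : μ * (ρ - ρ⁻¹) ≤ (1 / 2 - δ) * (ρ - ρ⁻¹) := mul_le_mul_of_nonneg_right hbad h2
    refine (add_le_add_left h3 _).trans (le_of_eq ?_)
    have h4 : ρ * ρ⁻¹ = 1 := mul_inv_cancel₀ hρ0.ne'
    have h5 : (1 / 2 - δ) * (ρ - ρ⁻¹) + ρ⁻¹ = (1 / 2 - δ) * ρ + (1 / 2 + δ) * ρ⁻¹ := by ring
    have h6 : (1 / 2 + δ : ℝ) = ρ / 2 := by rw [hρ]; ring
    rw [h5, h6]
    have h7 : ρ / 2 * ρ⁻¹ = 1 / 2 := by
      calc ρ / 2 * ρ⁻¹ = (ρ * ρ⁻¹) / 2 := by ring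
        _ = 1 / 2 := by rw [h4]
    rw [h7, hρ]
    ring
  have hle : ∀ ω : Fin K → Ω, ind ((K : ℝ) ≤ 2 * ∑ i, ind (bad (ω i))) ≤ ∏ l, v (ω l) := by
    intro ω
    by_cases h : (K : ℝ) ≤ 2 * ∑ i, ind (bad (ω i))
    · rw [ind_true h]
      have h1 : ∏ l, v (ω l) = ρ ^ (Finset.univ.filter fun l => bad (ω l)).card *
          ρ⁻¹ ^ (Finset.univ.filter fun l => ¬ bad (ω l)).card := by
        simp only [v]
        rw [Finset.prod_ite, Finset.prod_const, Finset.prod_const]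
      have h2 : ∑ i, ind (bad (ω i)) =
          ((Finset.univ.filter fun l => bad (ω l)).card : ℝ) := by
        rw [Finset.card_filter]
        push_cast
        refine Finset.sum_congr rfl fun i _ => ?_
        rw [ind_eq_ite]
      have h3 : (Finset.univ.filter fun l => bad (ω l)).card +
          (Finset.univ.filter fun l => ¬ bad (ω l)).card = K := by
        rw [Finset.card_filter_add_card_filter_not]
        simp
      rw [h2] at h
      have h4 : (Finset.univ.filter fun l => ¬ bad (ω l)).card ≤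
          (Finset.univ.filter fun l => bad (ω l)).card := by
        have : K ≤ 2 * (Finset.univ.filter fun l => bad (ω l)).card := by exact_mod_cast h
        omega
      rw [h1, inv_pow]
      have h5 : ρ ^ (Finset.univ.filter fun l => ¬ bad (ω l)).card ≤
          ρ ^ (Finset.univ.filter fun l => bad (ω l)).card := pow_le_pow_right₀ hρ1 h4
      have h6 : 0 < ρ ^ (Finset.univ.filter fun l => ¬ bad (ω l)).card := by positivity
      rw [← div_eq_mul_inv, le_div_iff₀ h6, one_mul]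
      exact h5
    · rw [ind_false h]
      exact Finset.prod_nonneg fun l _ => hv0 _
  have hv00 : 0 ≤ ∑ ω, p ω * v ω := Finset.sum_nonneg fun ω _ => mul_nonneg (hp ω) (hv0 ω)
  calc ∑ ω : Fin K → Ω, (∏ l, p (ω l)) * ind ((K : ℝ) ≤ 2 * ∑ i, ind (bad (ω i)))
      ≤ ∑ ω : Fin K → Ω, (∏ l, p (ω l)) * ∏ l, v (ω l) := by
        refine Finset.sum_le_sum fun ω _ => ?_
        exact mul_le_mul_of_nonneg_left (hle ω) (Finset.prod_nonneg fun l _ => hp _)
    _ = (∑ ω, p ω * v ω) ^ K := prod_E p v K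
    _ ≤ _ := pow_le_pow_left₀ hv00 hv K

end prob

/-! ### proofs for one pair -/

theorem no_proofs {m W : ℕ} (hm : 1200 ≤ m) (hn : n = m ^ 2) (hq : 1 ≤ q)
    {Ω : Type} [Fintype Ω] (P : Ω → ℝ) (hP : ∀ ω, 0 ≤ P ω)
    (good : Ω → Prop) (acc : Ω → Fin W → AA n k q → AA n k q → Prop) {ν η : ℝ}
    (hcor : ∀ ω, good ω → ∀ w, EE (1 / (m : ℝ)) (fun x y => ind (acc ω w x y) *
        ind (conj x.1 y.1 = zero n)) ≤
      9634 / 10000 * EE (1 / (m : ℝ)) (fun x y => ind (acc ω w x y)) + ν)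
    (hP1 : ∑ ω, P ω = 1) (hν : 0 ≤ ν) (hη : 0 ≤ η)
    (hbad : ∑ ω, P ω * ind (¬ good ω) ≤ 1 / 4)
    (hcomp : ∀ x y : AA n k q, conj x.1 y.1 = zero n →
      ∃ w, 3 / 4 ≤ ∑ ω, P ω * ind (acc ω w x y))
    (hsound : ∀ x y : AA n k q, ¬ conj x.1 y.1 = zero n →
      ∀ w, ∑ ω, P ω * ind (acc ω w x y) ≤ η)
    (hW : W * (η + ν) ≤ 1 / 1000) : False := by
  classical
  have hm' : (1200 : ℝ) ≤ m := by exact_mod_cast hm
  have hm0 : (0 : ℝ) < m := by linarith
  have hinv0 : 0 ≤ 1 / (m : ℝ) := by positivity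
  have hr1 : 0 ≤ 1 - 1 / (m : ℝ) := by
    have : 1 / (m : ℝ) ≤ 1 := by
      rw [div_le_one (by linarith)]
      linarith
    linarith
  let h : Fin W → AA n k q → AA n k q → ℝ := fun w x y =>
    ∑ ω, P ω * ind (good ω) * ind (acc ω w x y)
  have hh0 : ∀ w x y, 0 ≤ h w x y := fun w x y =>
    Finset.sum_nonneg fun ω _ => mul_nonneg (mul_nonneg (hP ω) (ind_nonneg _)) (ind_nonneg _)
  have hhle : ∀ w x y, h w x y ≤ ∑ ω, P ω * ind (acc ω w x y) := by
    intro w x y
    refine Finset.sum_le_sum fun ω _ => ?_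
    apply mul_le_mul_of_nonneg_right _ (ind_nonneg _)
    exact mul_le_of_le_one_right (hP ω) (ind_le_one _)
  have hhge : ∀ w x y, ∑ ω, P ω * ind (acc ω w x y) - 1 / 4 ≤ h w x y := by
    intro w x y
    have h1 : ∑ ω, P ω * ind (acc ω w x y) ≤ h w x y + ∑ ω, P ω * ind (¬ good ω) := by
      rw [← Finset.sum_add_distrib]
      refine Finset.sum_le_sum fun ω _ => ?_
      by_cases hg : good ω
      · rw [ind_true hg, ind_false (not_not.2 hg), mul_one, mul_zero, add_zero]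
      · rw [ind_false hg, ind_true hg]
        have := mul_le_of_le_one_right (hP ω) (ind_le_one (acc ω w x y))
        simpa using this
    linarith
  have hcor' : ∀ w, EE (1 / (m : ℝ)) (fun x y => h w x y * ind (conj x.1 y.1 = zero n)) ≤
      9634 / 10000 * EE (1 / (m : ℝ)) (h w) + ν := by
    intro w
    have e1 : EE (1 / (m : ℝ)) (fun x y => h w x y * ind (conj x.1 y.1 = zero n)) =
        ∑ ω, P ω * ind (good ω) * EE (1 / (m : ℝ)) (fun x y => ind (acc ω w x y) *
          ind (conj x.1 y.1 = zero n)) := by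
      rw [← Finset.sum_congr rfl fun ω _ => EE_mul _ _, ← EE_sum]
      congr 1
      funext x y
      simp only [h, Finset.sum_mul]
      refine Finset.sum_congr rfl fun ω _ => ?_
      ring
    have e2 : EE (1 / (m : ℝ)) (h w) =
        ∑ ω, P ω * ind (good ω) * EE (1 / (m : ℝ)) (fun x y => ind (acc ω w x y)) := by
      rw [← Finset.sum_congr rfl fun ω _ => EE_mul _ _, ← EE_sum]
    rw [e1, e2, Finset.mul_sum]
    have h2 : ∀ ω, P ω * ind (good ω) * EE (1 / (m : ℝ)) (fun x y => ind (acc ω w x y) *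
          ind (conj x.1 y.1 = zero n)) ≤
        9634 / 10000 * (P ω * ind (good ω) * EE (1 / (m : ℝ)) (fun x y => ind (acc ω w x y))) +
          P ω * ν := by
      intro ω
      by_cases hg : good ω
      · rw [ind_true hg, mul_one]
        have := mul_le_mul_of_nonneg_left (hcor ω hg w) (hP ω)
        linarith
      · rw [ind_false hg]
        have := mul_nonneg (hP ω) hν
        simpa using this
    refine (Finset.sum_le_sum fun ω _ => h2 ω).trans (le_of_eq ?_)
    rw [Finset.sum_add_distrib, ← Finset.sum_mul, hP1, one_mul]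
  -- the sum over all proofs
  obtain ⟨A, hA⟩ : ∃ A, A = ∑ w, EE (1 / (m : ℝ))
    (fun x y => h w x y * ind (conj x.1 y.1 = zero n)) := ⟨_, rfl⟩
  have h1 : A ≤ 9634 / 10000 * (A + W * η) + W * ν := by
    have h2 : ∀ w, EE (1 / (m : ℝ)) (h w) ≤
        EE (1 / (m : ℝ)) (fun x y => h w x y * ind (conj x.1 y.1 = zero n)) + η := by
      intro w
      rw [← EE_const (n := n) (k := k) (r := 1 / (m : ℝ)) hq η, ← EE_add]
      apply EE_mono hinv0 hr1
      intro x y
      by_cases hd : conj x.1 y.1 = zero n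
      · rw [ind_true hd, mul_one]
        linarith
      · rw [ind_false hd, mul_zero, zero_add]
        exact (hhle w x y).trans (hsound x y hd w)
    have h3 : A ≤ ∑ w : Fin W, (9634 / 10000 * (EE (1 / (m : ℝ))
        (fun x y => h w x y * ind (conj x.1 y.1 = zero n)) + η) + ν) := by
      rw [hA]
      refine Finset.sum_le_sum fun w _ => (hcor' w).trans ?_
      have := h2 w
      linarith
    refine h3.trans (le_of_eq ?_)
    rw [Finset.sum_add_distrib, ← Finset.mul_sum, Finset.sum_add_distrib, ← hA]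
    simp
  have h2 : (183 / 1000 : ℝ) ≤ A := by
    have h4 : (366 / 1000 : ℝ) ≤
        EE (k := k) (q := q) (1 / (m : ℝ)) (fun x y => ind (conj x.1 y.1 = zero n)) := by
      unfold EE
      simp only [ex2_disj, Finset.sum_const, Finset.card_univ, nsmul_eq_mul]
      have hN := card_pos (k := k) hq
      have h5 := disj_ge hm
      rw [hn]
      calc (366 / 1000 : ℝ) ≤ _ := h5
        _ = _ := by field_simp
    have h5 : EE (k := k) (q := q) (1 / (m : ℝ))
        (fun x y => 1 / 2 * ind (conj x.1 y.1 = zero n)) ≤ A := by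
      rw [hA, ← EE_sum]
      apply EE_mono hinv0 hr1
      intro x y
      rw [← Finset.sum_mul]
      by_cases hd : conj x.1 y.1 = zero n
      · rw [ind_true hd, mul_one, mul_one]
        obtain ⟨w, hw⟩ := hcomp x y hd
        have h6 := hhge w x y
        have h7 := Finset.single_le_sum (f := fun w => h w x y) (fun w _ => hh0 w x y)
          (Finset.mem_univ w)
        linarith
      · rw [ind_false hd, mul_zero, mul_zero]
    rw [EE_mul] at h5
    linarith
  have h3 : 0 ≤ W * η := mul_nonneg (Nat.cast_nonneg _) hη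
  rw [mul_add] at hW
  linarith

end Pool.Agent.Run7.h412.MA
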