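import Pool.Agent.Run7.h412.MA.Corr

/-!
# Proofs and random verification: memories made from exclusive ors, the main inequality
-/

set_option autoImplicit false

namespace Pool.Agent.Run7.h412.MA

open Pool.Agent.W959 Pool.Agent.W959.Ent Pool.Agent.TH457.EntD Pool.Agent.N631.LX
open Pool.Agent.R563 Pool.Agent.N631.SX

variable {k q n c : ℕ}

/-- The bits of a memory on the hard inputs of every query. -/
structure Mem (k q n c : ℕ) where
  C : Fin c → Fin k → Fin k → ZMod 2
  f : Fin k × Fin k → Fin c → AA n k q → ZMod 2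
  g : Fin k × Fin k → Fin c → AA n k q → ZMod 2

/-- the contents of the bit `σ` -/
noncomputable def Mem.val (M : Mem k q n c) (p : Fin k × Fin k) (x y : AA n k q) (σ : Fin c) :
    Bool :=
  decide (bt M.C (M.f p) (M.g p) p.1 p.2 σ x y = 1)

open Classical in
/-- the number of bits in which answers enter -/
noncomputable def Mem.space (M : Mem k q n c) : ℕ :=
  (Finset.univ.filter fun σ : Fin c => M.C σ ≠ 0).card

/-- independent copies -/
def Mem.amp (K : ℕ) (M : Fin K → Mem k q n c) : Mem k q n (K * c) where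
  C σ := (M (finProdFinEquiv.symm σ).1).C (finProdFinEquiv.symm σ).2
  f p σ := (M (finProdFinEquiv.symm σ).1).f p (finProdFinEquiv.symm σ).2
  g p σ := (M (finProdFinEquiv.symm σ).1).g p (finProdFinEquiv.symm σ).2

theorem Mem.amp_val (K : ℕ) (M : Fin K → Mem k q n c) (p : Fin k × Fin k) (x y : AA n k q)
    (i : Fin K) (σ : Fin c) :
    (Mem.amp K M).val p x y (finProdFinEquiv (i, σ)) = (M i).val p x y σ := by
  unfold Mem.val Mem.amp Pool.Agent.N631.SX.bt
  simp

theorem Mem.amp_space {s : ℕ} (K : ℕ) (M : Fin K → Mem k q n c) (hs : ∀ i, (M i).space ≤ s) :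
    (Mem.amp K M).space ≤ K * s := by
  classical
  have h1 : (Mem.amp K M).space =
      (Finset.univ.filter fun q : Fin K × Fin c => (M q.1).C q.2 ≠ 0).card := by
    unfold Mem.space Mem.amp
    refine Finset.card_bij (fun σ _ => finProdFinEquiv.symm σ) ?_ ?_ ?_
    · intro σ hσ
      simpa using hσ
    · intro σ _ σ' _ h
      exact finProdFinEquiv.symm.injective h
    · intro q hq
      refine ⟨finProdFinEquiv q, Finset.mem_filter.2 ⟨Finset.mem_univ _, ?_⟩, by simp⟩
      show (M (finProdFinEquiv.symm (finProdFinEquiv q)).1).C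
        (finProdFinEquiv.symm (finProdFinEquiv q)).2 ≠ 0
      rw [Equiv.symm_apply_apply]
      exact (Finset.mem_filter.1 hq).2
  rw [h1, Finset.card_filter, Fintype.sum_prod_type]
  calc _ ≤ ∑ _i : Fin K, s := by
        refine Finset.sum_le_sum fun i _ => ?_
        rw [← Finset.card_filter]
        refine le_trans (le_of_eq ?_) (hs i)
        unfold Mem.space
        congr
    _ = K * s := by simp

/-- the pairs which are served by few bits -/
theorem Mem.pairs {s : ℕ} (M : Mem k q n c) (hs : M.space ≤ s) :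
    ∃ (G : Finset (Fin k × Fin k)) (W : Submodule (ZMod 2) (Fin k → Fin k → ZMod 2)),
      G.card ≤ s * q ^ 2 ∧ (∀ l, M.C l ∈ W) ∧
        ∀ p : Fin k × Fin k, p ∉ G → ∀ w ∈ W, light q w p.1 p.2 → w p.1 p.2 = 0 := by
  classical
  let J : Finset (Fin k → Fin k → ZMod 2) := (Finset.univ.filter fun σ => M.C σ ≠ 0).image M.C
  let W : Submodule (ZMod 2) (Fin k → Fin k → ZMod 2) := Submodule.span (ZMod 2) (J : Set _)
  have hrank : Module.finrank (ZMod 2) W ≤ s := by
    refine (finrank_span_finset_le_card J).trans (Finset.card_image_le.trans ?_)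
    refine le_trans (le_of_eq ?_) hs
    unfold Mem.space
    congr
  let G : Finset (Fin k × Fin k) := Finset.univ.filter fun p =>
    ∃ w ∈ W, light q w p.1 p.2 ∧ w p.1 p.2 ≠ 0
  refine ⟨G, W, card_good W hrank G fun p hp => (Finset.mem_filter.1 hp).2, ?_, ?_⟩
  · intro l
    by_cases h : M.C l = 0
    · rw [h]
      exact Submodule.zero_mem _
    · exact Submodule.subset_span (Finset.mem_coe.2 (Finset.mem_image.2
        ⟨l, Finset.mem_filter.2 ⟨Finset.mem_univ _, h⟩, rfl⟩))
  · intro p hp w hw hl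
    by_contra h0
    exact hp (Finset.mem_filter.2 ⟨Finset.mem_univ _, w, hw, hl, h0⟩)

/-! ### the vote -/

/-- the majority vote of independent copies of a verification -/
noncomputable def ampT (t K : ℕ) (V : Fin K → XT.Tree c Bool) : XT.Tree (K * c) Bool :=
  ct (K * t) (majT K (List.ofFn fun i => mapT (fun σ => finProdFinEquiv (i, σ)) (ct t (V i))) 0)

theorem ampT_dep (t K : ℕ) (V : Fin K → XT.Tree c Bool) : dep (ampT t K V) ≤ K * t :=
  ct_dep _ _

theorem ampT_out (t K : ℕ) (V : Fin K → XT.Tree c Bool) (b : Fin (K * c) → Bool) :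
    (ampT t K V).out b = decide (K < 2 * ∑ i,
      if (ct t (V i)).out (fun σ => b (finProdFinEquiv (i, σ))) = true then 1 else 0) := by
  unfold ampT
  rw [ct_out, majT_out, List.map_ofFn, List.sum_ofFn, zero_add]
  · congr 3
    refine Finset.sum_congr rfl fun i _ => ?_
    simp only [Function.comp_apply, mapT_out]
  · rw [majT_probes, List.map_ofFn, List.sum_ofFn]
    calc _ ≤ ∑ _i : Fin K, t := by
          refine Finset.sum_le_sum fun i _ => ?_
          simp only [Function.comp_apply, mapT_probes]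
          exact (dep_probes _ _).trans (ct_dep _ _)
      _ = K * t := by simp

/-! ### the main inequality -/

theorem engine {W s t K T m : ℕ} (ht : 1 ≤ t) (hK : 1 ≤ K) (hT : T = 2 * (K * t))
    (hm : m = 1400 * T) (hn : n = m ^ 2) (hq : q = 100 * T) {Ω : Type} [Fintype Ω]
    (p : Ω → ℝ) (hp : ∀ ω, 0 ≤ p ω) (hp1 : ∑ ω, p ω = 1) (M : Ω → Mem k q n c)
    (hs : ∀ ω, (M ω).space ≤ s) (V : Ω → Fin W → Fin k × Fin k → XT.Tree c Bool) {δ : ℝ}
    (hδ : 0 < δ) (hδ2 : δ ≤ 1 / 2)
    (hcomp : ∀ (pr : Fin k × Fin k) (x y : AA n k q), conj x.1 y.1 = zero n → ∃ w,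
      1 / 2 + δ ≤ ∑ ω, p ω * ind ((ct t (V ω w pr)).out ((M ω).val pr x y) = true))
    (hsound : ∀ (pr : Fin k × Fin k) (x y : AA n k q), ¬ conj x.1 y.1 = zero n → ∀ w,
      ∑ ω, p ω * ind ((ct t (V ω w pr)).out ((M ω).val pr x y) = true) ≤ 1 / 2 - δ)
    (hK4 : (1 - 2 * δ ^ 2) ^ K ≤ 1 / 4)
    (hWK : W * ((1 - 2 * δ ^ 2) ^ K + 3 / 10000 * (1 / 2 : ℝ) ^ (K * t)) ≤ 1 / 1000) :
    (k : ℝ) ^ 2 ≤ 4 * ((K * s : ℕ) * (q : ℝ) ^ 2) := by
  classical
  by_contra hcon
  push Not at hcon
  have hKt : 1 ≤ K * t := Nat.one_le_iff_ne_zero.2 (by positivity)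
  have hT1 : 1 ≤ T := by omega
  let P : (Fin K → Ω) → ℝ := fun ω => ∏ l, p (ω l)
  have hP : ∀ ω, 0 ≤ P ω := fun ω => Finset.prod_nonneg fun l _ => hp _
  have hP1 : ∑ ω, P ω = 1 := total p hp1 K
  choose G WW hG hWW hgood using fun ω : Fin K → Ω =>
    (Mem.amp K fun i => M (ω i)).pairs (Mem.amp_space K _ fun i => hs (ω i))
  -- a query which is rarely served by few bits
  obtain ⟨pr, hpr⟩ : ∃ pr : Fin k × Fin k, ∑ ω, P ω * ind (¬ (pr ∉ G ω)) ≤ 1 / 4 := by
    by_contra hno'
    have hno : ∀ pr : Fin k × Fin k, 1 / 4 < ∑ ω, P ω * ind (¬ (pr ∉ G ω)) :=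
      fun pr => not_le.1 fun h => hno' ⟨pr, h⟩
    have h1 : (k : ℝ) ^ 2 * (1 / 4) ≤ ∑ pr : Fin k × Fin k, ∑ ω, P ω * ind (¬ (pr ∉ G ω)) := by
      refine le_trans (le_of_eq ?_) (Finset.sum_le_sum fun pr _ => (hno pr).le)
      rw [Finset.sum_const, Finset.card_univ, Fintype.card_prod, Fintype.card_fin, nsmul_eq_mul]
      push_cast
      ring
    rw [Finset.sum_comm] at h1
    have h2 : ∀ ω : Fin K → Ω, ∑ pr : Fin k × Fin k, P ω * ind (¬ (pr ∉ G ω)) ≤
        P ω * ((K * s : ℕ) * (q : ℝ) ^ 2) := by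
      intro ω
      rw [← Finset.mul_sum]
      apply mul_le_mul_of_nonneg_left _ (hP ω)
      have h3 : ∑ pr : Fin k × Fin k, ind (¬ (pr ∉ G ω)) = ((G ω).card : ℝ) := by
        have h4 : ∀ pr : Fin k × Fin k, ind (¬ (pr ∉ G ω)) = if pr ∈ G ω then (1 : ℝ) else 0 := by
          intro pr
          by_cases h : pr ∈ G ω
          · rw [if_pos h, ind_true (not_not.2 h)]
          · rw [if_neg h, ind_false (not_not.2 h)]
        rw [Finset.sum_congr rfl fun pr _ => h4 pr, Finset.sum_ite_mem, Finset.univ_inter,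
          Finset.sum_const, nsmul_eq_mul, mul_one]
      rw [h3]
      exact_mod_cast hG ω
    have h3 := h1.trans (Finset.sum_le_sum fun ω _ => h2 ω)
    rw [← Finset.sum_mul, hP1, one_mul] at h3
    linarith
  let acc : (Fin K → Ω) → Fin W → AA n k q → AA n k q → Prop := fun ω w x y =>
    (negT (ampT t K fun i => V (ω i) w pr)).out ((Mem.amp K fun i => M (ω i)).val pr x y) = false
  -- the number of positive votes
  have hacc : ∀ ω w x y, acc ω w x y ↔
      (K : ℝ) < 2 * ∑ i, ind ((ct t (V (ω i) w pr)).out ((M (ω i)).val pr x y) = true) := by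
    intro ω w x y
    simp only [acc]
    rw [negT_out, Bool.not_eq_false', ampT_out, decide_eq_true_iff]
    simp only [Mem.amp_val]
    have hcast : ((∑ i, if (ct t (V (ω i) w pr)).out ((M (ω i)).val pr x y) = true then 1
        else 0 : ℕ) : ℝ) = ∑ i, ind ((ct t (V (ω i) w pr)).out ((M (ω i)).val pr x y) = true) := by
      push_cast
      refine Finset.sum_congr rfl fun i _ => ?_
      rw [ind_eq_ite]
    rw [← hcast]
    have e1 : (fun i : Fin K => if (ct t (V (ω i) w pr)).out
        (fun σ => (M (ω i)).val pr x y σ) = true then 1 else 0) =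
        fun i : Fin K => if (ct t (V (ω i) w pr)).out ((M (ω i)).val pr x y) = true then 1 else 0 :=
      rfl
    constructor
    · intro h
      exact_mod_cast h
    · intro h
      exact_mod_cast h
  have hη0 : 0 ≤ (1 - 2 * δ ^ 2) ^ K := by
    apply pow_nonneg
    nlinarith
  refine no_proofs (m := m) (W := W) (by omega) hn (by omega) P hP (fun ω => pr ∉ G ω) acc
    (ν := 3 / 10000 * (1 / 2 : ℝ) ^ (K * t)) (η := (1 - 2 * δ ^ 2) ^ K) ?_ hP1 (by positivity) hη0
    hpr ?_ ?_ hWK
  · intro ω hω w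
    exact tree_corr (Mem.amp K fun i => M (ω i)).C ((Mem.amp K fun i => M (ω i)).f pr)
      ((Mem.amp K fun i => M (ω i)).g pr) pr.1 pr.2 hT1 hm hn hq (WW ω) (hWW ω) (hgood ω pr hω)
      (negT (ampT t K fun i => V (ω i) w pr)) (a := K * t) (by
        rw [negT_dep]
        have := ampT_dep t K (fun i => V (ω i) w pr)
        omega)
  · intro x y hd
    obtain ⟨w, hw⟩ := hcomp pr x y hd
    refine ⟨w, ?_⟩
    let bad : Ω → Prop := fun ω => ¬ (ct t (V ω w pr)).out ((M ω).val pr x y) = true
    have hbad : ∑ ω, p ω * ind (bad ω) ≤ 1 / 2 - δ := by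
      have h1 : ∑ ω, p ω * ind (bad ω) +
          ∑ ω, p ω * ind ((ct t (V ω w pr)).out ((M ω).val pr x y) = true) = 1 := by
        rw [← Finset.sum_add_distrib, ← hp1]
        refine Finset.sum_congr rfl fun ω _ => ?_
        by_cases h : (ct t (V ω w pr)).out ((M ω).val pr x y) = true
        · rw [ind_true h, ind_false (not_not.2 h)]; ring
        · rw [ind_false h, ind_true h]; ring
      linarith
    have h2 := chernoff p hp hp1 bad hδ hbad K
    have h3 : ∀ ω : Fin K → Ω, P ω - P ω * ind ((K : ℝ) ≤ 2 * ∑ i, ind (bad (ω i))) ≤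
        P ω * ind (acc ω w x y) := by
      intro ω
      by_cases h : (K : ℝ) ≤ 2 * ∑ i, ind (bad (ω i))
      · rw [ind_true h, mul_one, sub_self]
        exact mul_nonneg (hP ω) (ind_nonneg _)
      · rw [ind_false h, mul_zero, sub_zero, ind_true, mul_one]
        rw [hacc]
        push Not at h
        have h4 : ∑ i, ind (bad (ω i)) +
            ∑ i, ind ((ct t (V (ω i) w pr)).out ((M (ω i)).val pr x y) = true) = K := by
          rw [← Finset.sum_add_distrib]
          calc _ = ∑ _i : Fin K, (1 : ℝ) := by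
                refine Finset.sum_congr rfl fun i _ => ?_
                by_cases h : (ct t (V (ω i) w pr)).out ((M (ω i)).val pr x y) = true
                · rw [ind_true h, ind_false (not_not.2 h)]; ring
                · rw [ind_false h, ind_true h]; ring
            _ = K := by simp
        linarith
    have h4 := Finset.sum_le_sum fun ω (_ : ω ∈ (Finset.univ : Finset (Fin K → Ω))) => h3 ω
    rw [Finset.sum_sub_distrib, hP1] at h4
    have h5 : ∑ ω, P ω * ind ((K : ℝ) ≤ 2 * ∑ i, ind (bad (ω i))) ≤ 1 / 4 := h2.trans hK4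
    linarith
  · intro x y hd w
    refine le_trans (Finset.sum_le_sum fun ω _ => ?_) (chernoff p hp hp1
      (fun ω => (ct t (V ω w pr)).out ((M ω).val pr x y) = true) hδ (hsound pr x y hd w) K)
    apply mul_le_mul_of_nonneg_left _ (hP ω)
    apply ind_mono
    intro h
    exact ((hacc ω w x y).1 h).le

end Pool.Agent.Run7.h412.MA
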